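import Pool.Agent.Lib.OS35.Run
import Pool.Agent.Lib.MP_6d5d56_co.T2Fin
import Pool.Agent.Lib.MP_6d5d56_co.T2All

/-! Long paths and one further vertex: the colouring in terms of lists. -/

set_option autoImplicit false

namespace Pool.Agent.Lib.OS35

open List Pool.Agent.Lib.MP_6d5d56_co Pool.Agent.Lib.MP_6d5d56_co.T2

variable {V : Type}

theorem one_short [Fintype V] (A : V → V → Prop) (k : ℕ) (hk : 0 < k) (Ls : List (List V)) (s : V)
    (hP : Pack A Finset.univ (Ls ++ [[s]])) (hc : ∀ x, x ∈ (Ls ++ [[s]]).flatten)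
    (ho : Opt A Finset.univ k Ls) : ∃ c, Col A Finset.univ k Ls [[s]] c := by
  classical
  have hLs : Pack A Finset.univ Ls := hP.sublist (by simp)
  have hnd := hP.2.1
  rw [flatten_append, List.nodup_append] at hnd
  have hs : s ∉ Ls.flatten := fun h => hnd.2.2 s h s (by simp) rfl
  have hn := hnd.1
  rw [List.nodup_flatten] at hn
  let m : Fin Ls.length → ℕ := fun j => Ls[j].length
  let f : W (Fin Ls.length) → V := fun w => w.elim s fun x => Ls[x.1].getD x.2 s
  let ok : W (Fin Ls.length) → Prop := fun w => w.elim True fun x => x.2 < m x.1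
  have fe : ∀ j n (h : n < Ls[j].length), f (some (j, n)) = Ls[j][n] := fun j n h => by
    simp only [f, Option.elim]
    exact List.getD_eq_getElem _ _ h
  have mem : ∀ j : Fin Ls.length, Ls[j] ∈ Ls := fun j => List.getElem_mem _
  have fm : ∀ j n, n < m j → f (some (j, n)) ∈ Ls[j] := fun j n h => by
    rw [fe j n h]; exact List.getElem_mem _
  have inj : ∀ u v, ok u → ok v → f u = f v → u = v := by
    rintro (_ | ⟨j, n⟩) (_ | ⟨j', n'⟩) hu hv h
    · rfl
    · exact absurd (mem_flatten.2 ⟨_, mem j', (show s = _ from h) ▸ fm j' n' hv⟩) hs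
    · exact absurd (mem_flatten.2 ⟨_, mem j, (show s = _ from h.symm) ▸ fm j n hu⟩) hs
    · have hj : j = j' := by
        by_contra hj
        have hp := List.pairwise_iff_getElem.1 hn.2
        rcases lt_or_gt_of_ne hj with h' | h'
        · exact hp j j' j.2 j'.2 h' (fm j n hu) (h ▸ fm j' n' hv)
        · exact hp j' j j'.2 j.2 h' (fm j' n' hv) (h ▸ fm j n hu)
      subst hj
      rw [fe j n hu, fe j n' hv] at h
      rw [((hn.1 _ (mem j)).getElem_inj_iff).1 h]
  have sur : ∀ x, ∃ w, ok w ∧ f w = x := fun x => by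
    have := hc x
    rw [flatten_append, mem_append] at this
    rcases this with h | h
    · obtain ⟨L, h1, h2⟩ := mem_flatten.1 h
      obtain ⟨j, hj, rfl⟩ := List.getElem_of_mem h1
      obtain ⟨n, hn, rfl⟩ := List.getElem_of_mem h2
      exact ⟨some (⟨j, hj⟩, n), hn, fe ⟨j, hj⟩ n hn⟩
    · exact ⟨none, trivial, by simpa [f, eq_comm] using h⟩
  choose g g1 g2 using sur
  have gf : ∀ w, ok w → g (f w) = w := fun w h => inj _ _ (g1 _) h (g2 _)
  let a : W (Fin Ls.length) → W (Fin Ls.length) → Prop := fun u v => ok u ∧ ok v ∧ A (f u) (f v)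
  have ao : AO a m k := by
    rintro H hH ⟨ρ, r1, r2⟩
    let H' : V → V → Prop := fun x y => A x y ∧ ρ (g x) < ρ (g y)
    have hHL : Pack H' Finset.univ Ls := ⟨fun L hL => ⟨(hLs.1 L hL).1, by
      obtain ⟨j, hj, rfl⟩ := List.getElem_of_mem hL
      have := (hLs.1 _ hL).2
      rw [isChain_iff_getElem] at this ⊢
      intro n hn
      refine ⟨this n hn, ?_⟩
      have e1 := fe ⟨j, hj⟩ n (Nat.lt_of_succ_lt hn)
      have e2 := fe ⟨j, hj⟩ (n + 1) hn
      have e3 := gf (some (⟨j, hj⟩, n)) (Nat.lt_of_succ_lt hn)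
      have e4 := gf (some (⟨j, hj⟩, n + 1)) hn
      rw [e1] at e3
      rw [e2] at e4
      exact e3 ▸ e4 ▸ r1 ⟨j, hj⟩ n⟩, hLs.2⟩
    have hHA : ∀ Ms, Pack H' Finset.univ Ms → Pack A Finset.univ Ms :=
      fun Ms h => h.mono le_rfl fun _ _ _ _ h => h.1
    obtain ⟨i, o, κ, k1, k2, l1, l2, l3, l4⟩ := lp H' Finset.univ (fun _ => 1) (by simp)
      Ls hHL k k le_rfl (mrg_of_rank (fun x => ρ (g x)) (fun _ _ _ _ h => h.2) _)
      (fun Ms h e => by have := ho Ms (hHA Ms h); rw [wt_one, wt_one]; rw [e] at this; omega)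
      (fun Ms h e => by
        have := ho Ms (hHA Ms h); rw [wt_one, wt_one]; rw [e, mul_add] at this; omega)
      (fun Ms h e => by
        have := ho Ms (hHA Ms h); rw [wt_one, wt_one]; rw [← e, mul_add] at this; omega)
    obtain rfl : κ = k := le_antisymm k2 k1
    let y : Fin Ls.length × ℕ → ℤ := fun c => if c.2 < m c.1 then i (f (some c)) else k
    have y1 : ∀ c, ok (some c) → y c = i (f (some c)) := fun c h => if_pos h
    have y2 : ∀ j n, n < m j → y (j, n + 1) = o (f (some (j, n))) := fun j n h => by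
      by_cases h' : n + 1 < m j
      · rw [y1 (j, n + 1) h', fe j n h, fe j (n + 1) h']
        exact (isChain_iff_getElem.1 (l4 _ (mem j)).1 n h').symm
      · rw [show y (j, n + 1) = k from if_neg h', fe j n h]
        refine ((l4 _ (mem j)).2.2 _ ?_).symm
        have e : Ls[j].length - 1 = n := by simp only [m] at h h'; omega
        rw [List.getLast?_eq_getElem?, e]
        exact List.getElem?_eq_getElem h
    have arc : ∀ u v, H u v → o (f u) ≤ i (f v) := fun u v h => by
      obtain ⟨h1, h2, h3⟩ := hH u v h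
      have h4 := r2 u v h
      refine l2 _ (by simp) _ (by simp) (fun e => ?_) ⟨h3, by rw [gf u h1, gf v h2]; exact h4⟩
      rw [inj u v h1 h2 e] at h4
      exact lt_irrefl _ h4
    have os : o s = i s + 1 := l3 s (by simp) hs
    refine ⟨y, i s, fun j => ?_, fun j => if_neg (lt_irrefl _), fun j n h => ?_,
      (l1 s (by simp)).1, os ▸ (l1 s (by simp)).2.1, fun j n c h => ?_, fun j n h => ?_,
      fun c h => ?_⟩
    · have h : 0 < m j := List.length_pos_of_ne_nil (hLs.1 _ (mem j)).1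
      rw [y1 (j, 0) h, fe j 0 h]
      refine (l4 _ (mem j)).2.1 _ ?_
      rw [List.head?_eq_getElem?]
      exact List.getElem?_eq_getElem h
    · rw [y2 j n h, y1 (j, n) h]
      exact (l1 _ (by simp)).2.2
    · rw [y2 j n (hH _ _ h).1, y1 c (hH _ _ h).2.1]
      exact arc _ _ h
    · rw [y2 j n (hH _ _ h).1]
      exact arc _ _ h
    · rw [y1 c (hH _ _ h).2.1, ← os]
      exact arc _ _ h
  obtain ⟨c, c1, -, c3, c4, c5⟩ := final ao hk
  refine ⟨fun x => c (g x), fun x _ => c1 _, fun u _ v _ huv h => c4 _ _ (fun e => huv ?_)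
    ⟨g1 u, g1 v, by rw [g2, g2]; exact h⟩, fun L hL i i0 ik => ?_, fun L hL => ?_⟩
  · rw [← g2 u, e, g2]
  · obtain ⟨j, hj, rfl⟩ := List.getElem_of_mem hL
    obtain ⟨n, n1, n2⟩ := c5 ⟨j, hj⟩ i i0 ik
    exact ⟨_, fm ⟨j, hj⟩ n n1, by simp only; rw [gf (some (⟨j, hj⟩, n)) n1]; exact n2⟩
  · obtain rfl : L = [s] := by simpa using hL
    have : g s = none := gf none trivial
    simp [this, c3.2 trivial]

end Pool.Agent.Lib.OS35
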