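import Mathlib

/-! Trimming long paths from their ends in the presence of one further vertex. -/

set_option autoImplicit false

namespace Pool.Agent.Lib.OS35

/-- vertices: `none` is the further vertex, `some (j, n)` is vertex `n` of path `j` -/
abbrev W (ι : Type) : Type := Option (ι × ℕ)

variable {ι : Type}

/-- potentials at the cut positions of the paths -/
structure Pot (m : ι → ℕ) (k : ℕ) (H : W ι → W ι → Prop) (y : ι × ℕ → ℤ) (σ : ℤ) : Prop where
  z : ∀ j, y (j, 0) = 0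
  t : ∀ j, y (j, m j) = k
  st : ∀ j n, n < m j → y (j, n + 1) ≤ y (j, n) + 1
  s0 : 0 ≤ σ
  s1 : σ + 1 ≤ k
  ll : ∀ j n c, H (some (j, n)) (some c) → y (j, n + 1) ≤ y c
  ls : ∀ j n, H (some (j, n)) none → y (j, n + 1) ≤ σ
  sl : ∀ c, H none (some c) → σ + 1 ≤ y c

theorem Pot.anti {m : ι → ℕ} {k : ℕ} {H H' : W ι → W ι → Prop} {y : ι × ℕ → ℤ} {σ : ℤ}
    (h : Pot m k H' y σ) (hH : ∀ u v, H u v → H' u v) : Pot m k H y σ :=
  ⟨h.z, h.t, h.st, h.s0, h.s1, fun j n c e => h.ll j n c (hH _ _ e),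
    fun j n e => h.ls j n (hH _ _ e), fun c e => h.sl c (hH _ _ e)⟩

/-- the arcs increase a rank that increases along the paths -/
def Ac (H : W ι → W ι → Prop) : Prop :=
  ∃ ρ : W ι → ℤ, (∀ j n, ρ (some (j, n)) < ρ (some (j, n + 1))) ∧ ∀ u v, H u v → ρ u < ρ v

/-- removed vertices -/
def Rm (sr : Prop) (e : ι → ℕ) : W ι → Prop
  | none => sr
  | some c => e c.1 ≤ c.2

theorem Rm.mono {sr sr' : Prop} {e e' : ι → ℕ} (h1 : sr → sr') (h2 : ∀ j, e' j ≤ e j) :
    ∀ {v : W ι}, Rm sr e v → Rm sr' e' v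
  | none, h => h1 h
  | some c, h => (h2 c.1).trans h

/-- one more arc -/
def add (H : W ι → W ι → Prop) (u v : W ι) : W ι → W ι → Prop :=
  fun x y => H x y ∨ (x = u ∧ y = v)

theorem Ac.add {H : W ι → W ι → Prop} (h : Ac H) (sr : Prop) (e : ι → ℕ)
    (hc : ∀ x y, H x y → Rm sr e x → Rm sr e y) {u v : W ι} (hu : ¬ Rm sr e u)
    (hv : Rm sr e v) : Ac (add H u v) := by
  classical
  obtain ⟨ρ, r1, r2⟩ := h
  have h0 := abs_nonneg (ρ u - ρ v)
  have h1 := le_abs_self (ρ u - ρ v)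
  refine ⟨fun x => ρ x + if Rm sr e x then |ρ u - ρ v| + 1 else 0, fun j n => ?_, ?_⟩
  · have := r1 j n
    have h2 : Rm sr e (some (j, n)) → Rm sr e (some (j, n + 1)) := fun h => Nat.le_succ_of_le h
    by_cases a1 : Rm sr e (some (j, n))
    · simp only [if_pos a1, if_pos (h2 a1)]; omega
    · simp only [if_neg a1]; split_ifs <;> omega
  · rintro x y (h | ⟨rfl, rfl⟩)
    · have := r2 x y h
      by_cases a1 : Rm sr e x
      · simp only [if_pos a1, if_pos (hc x y h a1)]; omega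
      · simp only [if_neg a1]; split_ifs <;> omega
    · simp only [if_neg hu, if_pos hv]; omega

/-- chains of cut positions that end with an arc to the further vertex -/
inductive To (a : W ι → W ι → Prop) : ι × ℕ → Set (ι × ℕ) → Prop
  | last (j : ι) (n : ℕ) : a (some (j, n)) none → To a (j, n + 1) {(j, n + 1)}
  | step (j : ι) (n : ℕ) (z : ι × ℕ) (C : Set (ι × ℕ)) : To a z C → j ≠ z.1 →
      a (some (j, n)) (some z) → (∀ c ∈ C, c.1 = j → c.2 ≤ n) →
      To a (j, n + 1) (insert (j, n + 1) C)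

variable {a : W ι → W ι → Prop}

theorem To.self {z : ι × ℕ} {C : Set (ι × ℕ)} (h : To a z C) : z ∈ C := by
  cases h <;> simp

theorem To.le {z : ι × ℕ} {C : Set (ι × ℕ)} (h : To a z C) : ∀ c ∈ C, c.1 = z.1 → c.2 ≤ z.2 := by
  cases h with
  | last j n _ => rintro c rfl _; exact le_rfl
  | step j n z C _ _ _ h =>
    rintro c (rfl | hc) e
    · exact le_rfl
    · exact Nat.le_succ_of_le (h c hc e)

theorem To.suffix {z : ι × ℕ} {C : Set (ι × ℕ)} (h : To a z C) :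
    ∀ c ∈ C, ∃ C', C' ⊆ C ∧ To a c C' := by
  induction h with
  | last j n h => rintro c rfl; exact ⟨_, subset_rfl, To.last j n h⟩
  | step j n z C h1 h2 h3 h4 ih =>
    rintro c (rfl | hc)
    · exact ⟨_, subset_rfl, To.step j n z C h1 h2 h3 h4⟩
    · obtain ⟨C', c1, c2⟩ := ih c hc
      exact ⟨C', c1.trans (Set.subset_insert _ _), c2⟩

/-- arcs of a chain -/
def Tl (C : Set (ι × ℕ)) (u v : W ι) : Prop :=
  (∃ j n, u = some (j, n) ∧ (j, n + 1) ∈ C) ∧ (v = none ∨ ∃ c ∈ C, v = some c)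

theorem Tl.mono {C C' : Set (ι × ℕ)} (h : C ⊆ C') {u v : W ι} : Tl C u v → Tl C' u v := by
  rintro ⟨⟨j, n, h1, h2⟩, h3⟩
  exact ⟨⟨j, n, h1, h h2⟩, h3.imp id fun ⟨c, c1, c2⟩ => ⟨c, h c1, c2⟩⟩

theorem To.ext (m : ι → ℕ) (k : ℕ) {z : ι × ℕ} {C : Set (ι × ℕ)} (h : To a z C) :
    ∀ (H : W ι → W ι → Prop) (e : ι → ℕ), (∀ u v, H u v → a u v) → Ac H →
      (∀ u v, H u v → Rm False e v) → (∀ c ∈ C, c.2 ≤ e c.1) →
      ∃ H' : W ι → W ι → Prop, (∀ u v, H u v → H' u v) ∧ (∀ u v, H' u v → a u v) ∧ Ac H' ∧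
        (∀ u v, H' u v → H u v ∨ Tl C u v) ∧
        ∀ y σ, Pot m k H' y σ → ∀ c ∈ C, y z ≤ y c ∧ y c ≤ σ := by
  classical
  induction h with
  | last j n h =>
    intro H e h1 h2 h3 h4
    have := h4 _ rfl
    refine ⟨add H (some (j, n)) none, fun _ _ => Or.inl, ?_, h2.add True e
      (fun x y hx _ => (h3 x y hx).mono (fun _ => trivial) fun _ => le_rfl)
      (fun h : e j ≤ n => by simp only at this; omega) trivial, ?_, ?_⟩
    · rintro u v (h' | ⟨rfl, rfl⟩)
      exacts [h1 u v h', h]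
    · rintro u v (h' | ⟨rfl, rfl⟩)
      exacts [Or.inl h', Or.inr ⟨⟨j, n, rfl, rfl⟩, Or.inl rfl⟩]
    · rintro y σ hp c rfl
      exact ⟨le_rfl, hp.ls j n (Or.inr ⟨rfl, rfl⟩)⟩
  | step j n z C t1 t2 t3 t4 ih =>
    intro H e h1 h2 h3 h4
    have a0 := h4 _ (Set.mem_insert _ _)
    have a1 := h4 z (Set.mem_insert_of_mem _ t1.self)
    have a2 : ∀ i, Function.update e z.1 z.2 i ≤ e i := fun i => by
      by_cases hi : i = z.1
      · subst hi; simpa using a1
      · simp [hi]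
    have a3 : Rm False (Function.update e z.1 z.2) (some z) := by simp [Rm]
    have a4 : ∀ u v, add H (some (j, n)) (some z) u v →
        Rm False (Function.update e z.1 z.2) v := by
      rintro u v (h' | ⟨rfl, rfl⟩)
      exacts [(h3 u v h').mono id a2, a3]
    obtain ⟨H', b1, b2, b3, b4, b5⟩ := ih (add H (some (j, n)) (some z))
      (Function.update e z.1 z.2) (by
        rintro u v (h' | ⟨rfl, rfl⟩)
        exacts [h1 u v h', t3])
      (h2.add False _ (fun x y hx _ => a4 x y (Or.inl hx))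
        (by simp only [Rm, Function.update_of_ne t2]; simp only at a0; omega) a3) a4
      (fun c hc => by
        by_cases hi : c.1 = z.1
        · rw [hi]; simpa using t1.le c hc hi
        · simpa [hi] using h4 c (Set.mem_insert_of_mem _ hc))
    refine ⟨H', fun u v h => b1 u v (Or.inl h), b2, b3, fun u v h => ?_, fun y σ hp => ?_⟩
    · rcases b4 u v h with (h | ⟨rfl, rfl⟩) | h
      · exact Or.inl h
      · exact Or.inr ⟨⟨j, n, rfl, Set.mem_insert _ _⟩,
          Or.inr ⟨z, Set.mem_insert_of_mem _ t1.self, rfl⟩⟩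
      · exact Or.inr (h.mono (Set.subset_insert _ _))
    · have c1 := hp.ll j n z (b1 _ _ (Or.inr ⟨rfl, rfl⟩))
      rintro c (rfl | hc)
      · exact ⟨le_rfl, c1.trans (b5 y σ hp z t1.self).2⟩
      · exact ⟨c1.trans (b5 y σ hp c hc).1, (b5 y σ hp c hc).2⟩

/-- the invariant of a run at level `l` -/
structure G (a : W ι → W ι → Prop) (m : ι → ℕ) (k l : ℕ) (b sr Γ : Prop) (C : Set (ι × ℕ))
    (H : W ι → W ι → Prop) (e : ι → ℕ) : Prop where
  sub : ∀ u v, H u v → a u v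
  ac : Ac H
  hd : ∀ u v, H u v → Rm sr e v ∨ Tl C u v
  le : ∀ j, e j ≤ m j
  lo : ∀ y σ, Pot m k H y σ → (∀ j, (l : ℤ) ≤ y (j, e j)) ∧ (b → (l : ℤ) ≤ σ + 1) ∧
    ∀ c ∈ C, (l : ℤ) - 1 ≤ y c ∧ y c ≤ σ
  un : ∀ c ∈ C, c.2 < e c.1
  sf : ∀ c ∈ C, ∃ C', C' ⊆ C ∧ To a c C'
  ks : ∀ j, (∀ C', To a (j, e j) C' → (∀ c ∈ C', c.1 ≠ j → c.2 < e c.1) → Γ) ∨
    ∀ y σ, Pot m k H y σ → σ + 1 ≤ y (j, e j)

/-- every acyclic set of arcs has a potential -/
def AO (a : W ι → W ι → Prop) (m : ι → ℕ) (k : ℕ) : Prop :=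
  ∀ H : W ι → W ι → Prop, (∀ u v, H u v → a u v) → Ac H → ∃ y σ, Pot m k H y σ

variable {m : ι → ℕ} {k l : ℕ} {b sr Γ : Prop} {C : Set (ι × ℕ)} {H : W ι → W ι → Prop}
  {e : ι → ℕ}

theorem G.pos (ao : AO a m k) (g : G a m k (l + 1) b sr Γ C H e) (j : ι) : 1 ≤ e j := by
  obtain ⟨y, σ, hp⟩ := ao H g.sub g.ac
  have h1 := (g.lo y σ hp).1 j
  have h2 := hp.z j
  by_contra h
  rw [show e j = 0 by omega, h2] at h1
  omega

theorem G.closed (g : G a m k l b sr Γ C H e) {sr' : Prop} {e' : ι → ℕ} (h1 : sr → sr')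
    (h2 : ∀ j, e' j ≤ e j) (h3 : ∀ j, e j ≤ e' j + 1) :
    ∀ x y, H x y → Rm sr' e' x → Rm sr' e' y := by
  intro x y h hx
  rcases g.hd x y h with h' | ⟨⟨j, n, rfl, h'⟩, -⟩
  · exact h'.mono h1 h2
  · have := g.un _ h'
    have := h3 j
    simp only [Rm] at *
    omega

theorem G.step [DecidableEq ι] (ao : AO a m k) (g : G a m k l b sr Γ C H e) (hb : b → ¬ sr)
    {u : W ι} {j' : ι} {n' : ℕ} (he : e j' = n' + 1)
    (hu : (∃ j n, j ≠ j' ∧ e j = n + 1 ∧ u = some (j, n)) ∨ (b ∧ u = none))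
    (ha : a u (some (j', n'))) :
    (C.Nonempty ∧ Γ) ∨
      G a m k l b sr Γ C (add H u (some (j', n'))) (Function.update e j' n') := by
  set e' := Function.update e j' n' with he'
  set H' := add H u (some (j', n')) with hH'
  have e0 : e' j' = n' := by simp [he']
  have e1 : ∀ i, i ≠ j' → e' i = e i := fun i hi => by simp [he', hi]
  have e2 : ∀ i, e' i ≤ e i ∧ e i ≤ e' i + 1 := fun i => by
    by_cases hi : i = j'
    · subst hi; omega
    · rw [e1 i hi]; omega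
  have hv : Rm sr e' (some (j', n')) := e0.le
  have hH : ∀ x y, H x y → H' x y := fun _ _ => Or.inl
  have hn : H' u (some (j', n')) := Or.inr ⟨rfl, rfl⟩
  have sub : ∀ x y, H' x y → a x y := by
    rintro x y (h | ⟨rfl, rfl⟩)
    exacts [g.sub x y h, ha]
  have ac : Ac H' := g.ac.add sr e' (g.closed id (fun i => (e2 i).1) fun i => (e2 i).2) (by
    rcases hu with ⟨j, n, h1, h2, rfl⟩ | ⟨h1, rfl⟩
    · simp only [Rm, e1 j h1]; omega
    · exact hb h1) hv
  have ks : (∀ C', To a (j', n') C' → (∀ c ∈ C', c.1 ≠ j' → c.2 < e' c.1) → Γ) ∨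
      ∀ y σ, Pot m k H' y σ → σ + 1 ≤ y (j', n') := by
    rcases hu with ⟨j, n, h1, h2, rfl⟩ | ⟨h1, rfl⟩
    · rcases g.ks j with h | h
      · refine Or.inl fun C' t1 t2 => h (insert (j, n + 1) C') ?_ ?_
        · rw [h2]
          refine To.step j n _ C' t1 h1 ha fun c hc hj => ?_
          have := t2 c hc (hj ▸ h1)
          rw [hj, e1 j h1] at this
          omega
        · rintro c (rfl | hc) hj
          · exact absurd rfl hj
          · by_cases hi : c.1 = j'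
            · have := t1.le c hc hi
              rw [hi]; simp only at this; omega
            · exact (t2 c hc hi).trans_le (e2 _).1
      · refine Or.inr fun y σ hp => (h y σ (hp.anti hH)).trans ?_
        rw [h2]; exact hp.ll j n _ hn
    · exact Or.inr fun y σ hp => hp.sl _ hn
  by_cases hC : (j', n') ∈ C
  · rcases ks with h | h
    · obtain ⟨C', c1, c2⟩ := g.sf _ hC
      exact Or.inl ⟨⟨_, hC⟩, h C' c2 fun c hc hj => by rw [e1 _ hj]; exact g.un c (c1 hc)⟩
    · obtain ⟨y, σ, hp⟩ := ao H' sub ac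
      have := h y σ hp
      have := ((g.lo y σ (hp.anti hH)).2.2 _ hC).2
      omega
  refine Or.inr ⟨sub, ac, ?_, fun i => (e2 i).1.trans (g.le i), fun y σ hp => ?_, fun c hc => ?_,
    g.sf, fun i => ?_⟩
  · rintro x y (h | ⟨rfl, rfl⟩)
    · exact (g.hd x y h).imp (fun h => h.mono id fun i => (e2 i).1) id
    · exact Or.inl hv
  · obtain ⟨l1, l2, l3⟩ := g.lo y σ (hp.anti hH)
    refine ⟨fun i => ?_, l2, l3⟩
    by_cases hi : i = j'
    · subst hi
      rw [e0]
      rcases hu with ⟨j, n, h1, h2, rfl⟩ | ⟨h1, rfl⟩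
      · exact (l1 j).trans (by rw [h2]; exact hp.ll j n _ hn)
      · exact (l2 h1).trans (hp.sl _ hn)
    · rw [e1 i hi]; exact l1 i
  · have := g.un c hc
    by_cases hi : c.1 = j'
    · have h : c.2 ≠ n' := fun h => hC (by rw [← hi, ← h]; exact hc)
      rw [hi] at this ⊢
      omega
    · rw [e1 _ hi]; exact this
  · by_cases hi : i = j'
    · subst hi; rw [e0]; exact ks
    · rw [e1 i hi]
      exact (g.ks i).imp (fun h C' t1 t2 => h C' t1 fun c hc hj =>
        (t2 c hc hj).trans_le (e2 _).1) fun h y σ hp => h y σ (hp.anti hH)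

end Pool.Agent.Lib.OS35
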