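import Pool.Agent.Lib.OS35.Core

/-! The runs and the colouring. -/

set_option autoImplicit false

namespace Pool.Agent.Lib.OS35

variable {ι : Type} {a : W ι → W ι → Prop} {m : ι → ℕ} {k l : ℕ} {b sr Γ : Prop}
  {C : Set (ι × ℕ)} {H : W ι → W ι → Prop} {e : ι → ℕ}

/-- the exposed vertices form a stable set -/
def Stab (a : W ι → W ι → Prop) (b : Prop) (e : ι → ℕ) : Prop :=
  (∀ j j', j ≠ j' → ¬ a (some (j, e j - 1)) (some (j', e j' - 1))) ∧
    (b → ∀ j, ¬ a none (some (j, e j - 1)) ∧ ¬ a (some (j, e j - 1)) none)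

theorem trim [Fintype ι] (ao : AO a m k) (hb : b → ¬ sr) (hC : C.Nonempty → b) :
    ∀ (N : ℕ) (H : W ι → W ι → Prop) (e : ι → ℕ), ∑ j, e j < N →
      G a m k (l + 1) b sr Γ C H e →
      (b ∧ Γ) ∨ ∃ H' e', G a m k (l + 1) b sr Γ C H' e' ∧ (∀ j, e' j ≤ e j) ∧ Stab a b e' := by
  classical
  intro N
  induction N with
  | zero => intro H e h; omega
  | succ N ih =>
    intro H e hN g
    have pos := g.pos ao
    have go : ∀ (u : W ι) (j' : ι),
        ((∃ j n, j ≠ j' ∧ e j = n + 1 ∧ u = some (j, n)) ∨ (b ∧ u = none)) →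
        a u (some (j', e j' - 1)) → (b ∧ Γ) ∨
          ∃ H' e', G a m k (l + 1) b sr Γ C H' e' ∧ (∀ j, e' j ≤ e j) ∧ Stab a b e' := by
      intro u j' hu ha
      have hp := pos j'
      have e2 : ∀ i, Function.update e j' (e j' - 1) i ≤ e i := fun i => by
        by_cases hi : i = j'
        · subst hi; simp
        · simp [hi]
      rcases g.step ao hb (by omega) hu ha with h | h
      · exact Or.inl ⟨hC h.1, h.2⟩
      · have : ∑ j, Function.update e j' (e j' - 1) j < ∑ j, e j :=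
          Finset.sum_lt_sum (fun i _ => e2 i) ⟨j', Finset.mem_univ _, by simp; omega⟩
        refine (ih _ _ (by omega) h).imp id fun ⟨H', e', h1, h2, h3⟩ =>
          ⟨H', e', h1, fun j => (h2 j).trans (e2 j), h3⟩
    by_cases s : Stab a b e
    · exact Or.inr ⟨H, e, g, fun _ => le_rfl, s⟩
    simp only [Stab, not_and_or, not_forall, not_not] at s
    rcases s with ⟨j, j', h1, h2⟩ | ⟨h1, j, h2 | h2⟩
    · exact go _ j' (Or.inl ⟨j, e j - 1, h1, by have := pos j; omega, rfl⟩) h2
    · exact go _ j (Or.inr ⟨h1, rfl⟩) h2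
    · obtain ⟨n, hn⟩ : ∃ n, e j = n + 1 := ⟨e j - 1, by have := pos j; omega⟩
      rw [hn, Nat.add_sub_cancel] at h2
      rcases g.ks j with h | h
      · refine Or.inl ⟨h1, h {(j, n + 1)} (by rw [hn]; exact To.last j n h2) ?_⟩
        rintro c rfl hj
        exact absurd rfl hj
      · obtain ⟨y, σ, hp⟩ := ao (add H (some (j, n)) none) (by
          rintro u v (h' | ⟨rfl, rfl⟩)
          exacts [g.sub u v h', h2])
          (g.ac.add True e (g.closed (fun _ => trivial) (fun _ => le_rfl) fun _ => Nat.le_succ _)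
            (by simp only [Rm]; omega) trivial)
        have := h y σ (hp.anti fun _ _ => Or.inl)
        have := hp.ls j n (Or.inr ⟨rfl, rfl⟩)
        rw [← hn] at this
        omega

/-- a chain that starts at an exposed vertex -/
def Goal (a : W ι → W ι → Prop) (e : ι → ℕ) : Prop :=
  ∃ j C, To a (j, e j) C ∧ ∀ c ∈ C, c.2 ≤ e c.1

theorem down (ao : AO a m k) (g : G a m k (l + 1) b sr Γ C H e) {sr' : Prop} (h1 : sr → sr')
    (h2 : C.Nonempty → sr') :
    ∃ e' : ι → ℕ, (∀ j, e' j < e j) ∧ (¬ C.Nonempty → ∀ j, e' j + 1 = e j) ∧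
      ∀ Γ' : Prop, (Goal a e' → Γ') → G a m k l False sr' Γ' ∅ H e' := by
  have pos := g.pos ao
  set e' : ι → ℕ := fun j => sInf {n | n + 1 = e j ∨ (j, n) ∈ C} with he'
  have a1 : ∀ j, e' j + 1 = e j ∨ (j, e' j) ∈ C := fun j =>
    Nat.sInf_mem (s := {n | n + 1 = e j ∨ (j, n) ∈ C})
      ⟨e j - 1, Or.inl (by have := pos j; omega)⟩
  have a2 : ∀ j, e' j < e j := fun j => by
    have : e' j ≤ e j - 1 := Nat.sInf_le (Or.inl (by have := pos j; omega))
    have := pos j
    omega
  have a3 : ∀ c ∈ C, e' c.1 ≤ c.2 := fun c hc => Nat.sInf_le (Or.inr hc)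
  refine ⟨e', a2, fun h j => (a1 j).resolve_right fun h' => h ⟨_, h'⟩, fun Γ' hΓ =>
    ⟨g.sub, g.ac, fun u v h => Or.inl ?_, fun j => (a2 j).le.trans (g.le j), fun y σ hp => ?_,
      by simp, by simp, fun j => Or.inl fun C' t1 t2 => hΓ ⟨j, C', t1, fun c hc => ?_⟩⟩⟩
  · rcases g.hd u v h with h' | ⟨⟨j, n, -, h'⟩, rfl | ⟨c, hc, rfl⟩⟩
    · exact h'.mono h1 fun j => (a2 j).le
    · exact h2 ⟨_, h'⟩
    · exact a3 c hc
  · obtain ⟨l1, -, l3⟩ := g.lo y σ hp
    refine ⟨fun j => ?_, False.elim, by simp⟩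
    rcases a1 j with h | h
    · have h3 := hp.st j (e' j) ((a2 j).trans_le (g.le j))
      have h4 := l1 j
      rw [h] at h3
      push_cast at h4
      omega
    · have := (l3 _ h).1
      push_cast at this
      omega
  · by_cases hj : c.1 = j
    · rw [hj]; exact t1.le c hc hj
    · exact (t2 c hc hj).le

/-- colourings with the colours `1, …, l` below a cut; `p` says that the further vertex is
coloured -/
def Cl (a : W ι → W ι → Prop) (p : Prop) (l : ℕ) (e : ι → ℕ) : Prop :=
  ∃ c : W ι → ℕ, (∀ w, c w ≤ l) ∧ (∀ j n, e j ≤ n → c (some (j, n)) = 0) ∧ (c none ≠ 0 ↔ p) ∧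
    (∀ u v, u ≠ v → a u v → c u = c v → c u = 0) ∧
    ∀ j i, 0 < i → i ≤ l → ∃ n, n < e j ∧ c (some (j, n)) = i

theorem Cl.push {p q : Prop} {e0 e1 e2 : ι → ℕ} (h : Cl a p l e2) (h2 : ∀ j, e2 j < e1 j)
    (h1 : ∀ j, e1 j ≤ e0 j) (s : Stab a b e1) (hb : b → ¬ p) (hq : q ↔ p ∨ b) :
    Cl a q (l + 1) e0 := by
  classical
  obtain ⟨c, c1, c2, c3, c4, c5⟩ := h
  let top : W ι → Prop := fun w => w.elim b fun x => x.2 = e1 x.1 - 1
  have t1 : ∀ u v, u ≠ v → a u v → top u → top v → False := by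
    rintro (_ | ⟨j, n⟩) (_ | ⟨j', n'⟩) huv ha hu hv
    · exact huv rfl
    · obtain rfl : n' = e1 j' - 1 := hv
      exact (s.2 hu j').1 ha
    · obtain rfl : n = e1 j - 1 := hu
      exact (s.2 hv j).2 ha
    · obtain rfl : n' = e1 j' - 1 := hv
      obtain rfl : n = e1 j - 1 := hu
      exact s.1 j j' (fun h => huv (by rw [h])) ha
  refine ⟨fun w => if top w then l + 1 else c w, fun w => ?_, fun j n hn => ?_, ?_,
    fun u v huv ha => ?_, fun j i i0 il => ?_⟩
  · have := c1 w
    simp only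
    split_ifs <;> omega
  · have := h1 j
    have := h2 j
    have h3 : ¬ top (some (j, n)) := fun h : n = e1 j - 1 => by omega
    simp only [if_neg h3]
    exact c2 j n (by omega)
  · by_cases h : b
    · have h3 : top none := h
      simp [if_pos h3, hq, h]
    · have h3 : ¬ top none := h
      simp only [if_neg h3, hq, h, or_false]
      exact c3
  · have := c1 u
    have := c1 v
    have := c4 u v huv ha
    have := t1 u v huv ha
    simp only
    split_ifs <;> first | omega | tauto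
  · have := h1 j
    have := h2 j
    by_cases hi : i = l + 1
    · have h3 : top (some (j, e1 j - 1)) := rfl
      exact ⟨e1 j - 1, by omega, by simp only [if_pos h3, hi]⟩
    · obtain ⟨n, n1, n2⟩ := c5 j i i0 (by omega)
      have h3 : ¬ top (some (j, n)) := fun h : n = e1 j - 1 => by omega
      exact ⟨n, by omega, by simp only [if_neg h3, n2]⟩

theorem low [Fintype ι] (ao : AO a m k) : ∀ (l : ℕ) (H : W ι → W ι → Prop) (e : ι → ℕ),
    G a m k l False True True ∅ H e → Cl a False l e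
  | 0, _, _, _ => ⟨fun _ => 0, by simp, by simp, by simp, by simp, fun _ _ _ _ => by omega⟩
  | l + 1, H, e, g => by
    rcases trim ao False.elim (by simp) _ H e (Nat.lt_succ_self _) g with h | ⟨H1, e1, g1, h1, s⟩
    · exact h.1.elim
    obtain ⟨e2, d1, -, d3⟩ := down ao g1 (sr' := True) id (fun _ => trivial)
    exact (low ao l H1 e2 (d3 True fun _ => trivial)).push d1 h1 s False.elim (by simp)

theorem G.free (g : G a m k l False False Γ ∅ H e) {u v : W ι} (h : H u v) : Rm False e v :=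
  (g.hd u v h).resolve_right fun ⟨⟨_, _, _, h⟩, _⟩ => h

theorem main [Fintype ι] (ao : AO a m k) : ∀ (l : ℕ) (H : W ι → W ι → Prop) (e : ι → ℕ),
    G a m k l False False (Goal a e) ∅ H e → Cl a True l e ∨ l = 0 ∨ Goal a e
  | 0, _, _, _ => Or.inr (Or.inl rfl)
  | l + 1, H, e, g => by
    rcases trim ao False.elim (by simp) _ H e (Nat.lt_succ_self _) g with h | ⟨H1, e1, g1, h1, s⟩
    · exact h.1.elim
    obtain ⟨e2, d1, -, d3⟩ := down ao g1 (sr' := False) id (by simp)
    have g2 := d3 _ id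
    rcases main ao l H1 e2 g2 with h | h
    · exact Or.inl (h.push d1 h1 s False.elim (by simp))
    obtain ⟨C, H2, g3⟩ : ∃ C H2, G a m k (l + 1) True False (Goal a e) C H2 e1 := by
      rcases h with rfl | ⟨j, C, t1, t2⟩
      · exact ⟨∅, H1, g1.sub, g1.ac, g1.hd, g1.le, fun y σ hp => ⟨(g1.lo y σ hp).1,
          fun _ => by have := hp.s0; push_cast; omega, by simp⟩, g1.un, g1.sf, g1.ks⟩
      · obtain ⟨H2, b1, b2, b3, b4, b5⟩ := t1.ext m k H1 e2 g1.sub g1.ac (fun _ _ => g2.free) t2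
        refine ⟨C, H2, b2, b3, fun u v h => (b4 u v h).imp g1.free id, g1.le, fun y σ hp => ?_,
          fun c hc => (t2 c hc).trans_lt (d1 _), t1.suffix, fun i => (g1.ks i).imp id
            fun h y σ hp => h y σ (hp.anti b1)⟩
        have l1 := (g2.lo y σ (hp.anti b1)).1 j
        have l2 := b5 y σ hp
        refine ⟨(g1.lo y σ (hp.anti b1)).1, fun _ => ?_, fun c hc => ⟨?_, (l2 c hc).2⟩⟩
        · have := (l2 _ t1.self).2
          push_cast; omega
        · have := (l2 c hc).1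
          push_cast; omega
    rcases trim ao (fun _ => id) (fun _ => trivial) _ H2 e1 (Nat.lt_succ_self _) g3 with
      h | ⟨H3, e3, g4, h3, s3⟩
    · exact Or.inr (Or.inr h.2)
    obtain ⟨e4, f1, -, f3⟩ := down ao g4 (sr' := True) (fun _ => trivial) (fun _ => trivial)
    exact Or.inl ((low ao l H3 e4 (f3 True fun _ => trivial)).push f1
      (fun j => (h3 j).trans (h1 j)) s3 (fun _ => id) (by simp))

theorem start (Γ : Prop) (sr : Prop) (hΓ : Goal a m → Γ) :
    G a m k k False sr Γ ∅ (fun _ _ => False) m :=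
  ⟨fun _ _ => False.elim, ⟨fun w => w.elim 0 fun x => x.2, fun j n => by simp, by simp⟩,
    fun _ _ => False.elim, fun _ => le_rfl, fun y σ hp => ⟨fun j => (hp.t j).ge, False.elim, by simp⟩,
    by simp, by simp, fun j => Or.inl fun C t1 t2 => hΓ ⟨j, C, t1, fun c hc => by
      by_cases hj : c.1 = j
      · rw [hj]; exact t1.le c hc hj
      · exact (t2 c hc hj).le⟩⟩

theorem final [Fintype ι] (ao : AO a m k) (hk : 0 < k) : Cl a True k m := by
  have g := start (a := a) (m := m) (k := k) _ False id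
  rcases main ao k _ m g with h | h | ⟨j, C, t1, t2⟩
  · exact h
  · omega
  · obtain ⟨H2, -, b2, b3, -, b5⟩ := t1.ext m k _ m g.sub g.ac (fun _ _ => False.elim) t2
    obtain ⟨y, σ, hp⟩ := ao H2 b2 b3
    have := (b5 y σ hp _ t1.self).2
    have := hp.t j
    have := hp.s1
    omega

end Pool.Agent.Lib.OS35
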